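import Pool.Agent.MTF.StmtsA

/-! Module CDL: the codimension bound. -/

set_option autoImplicit false

namespace Pool.Agent.MTF.H32

open Matrix

variable {d : Type} [Fintype d] [DecidableEq d]

omit [DecidableEq d] in
/-- the polarisation is non degenerate -/
theorem HL_left {w : ℕ} {Ψ : Matrix d d ℂ} {V : ℕ → Submodule ℂ (d → ℂ)}
    (htop : ∀ p, w < p → V p = ⊥) (hspan : ⨆ p, V p = ⊤)
    (hconj : ∀ p ≤ w, ∀ x ∈ V p, star x ∈ V (w - p))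
    (horth : ∀ p q, p + q ≠ w → ∀ x ∈ V p, ∀ y ∈ V q, x ⬝ᵥ (Ψ *ᵥ y) = 0)
    (hpos : ∀ p ≤ w, ∀ x ∈ V p, x ≠ 0 → ∃ t : ℝ, 0 < t ∧
      Complex.I ^ p * (-Complex.I) ^ (w - p) * (x ⬝ᵥ (Ψ *ᵥ star x)) = t)
    {v : d → ℂ} (hv : v ≠ 0) : Ψ *ᵥ v ≠ 0 := by
  intro h0
  have h1 : v ∈ ⨆ p, V p := by rw [hspan]; exact Submodule.mem_top
  rw [Submodule.mem_iSup_iff_exists_finsupp] at h1
  obtain ⟨f, hf, hfv⟩ := h1
  obtain ⟨p, hp⟩ : ∃ p, f p ≠ 0 := by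
    by_contra hc
    push Not at hc
    apply hv
    rw [← hfv]
    exact Finset.sum_eq_zero fun i _ => hc i
  have hpw : p ≤ w := by
    by_contra hc
    apply hp
    have := hf p
    rw [htop p (by omega), Submodule.mem_bot] at this
    exact this
  have hx := hconj p hpw (f p) (hf p)
  have hx0 : star (f p) ≠ 0 := by
    intro h
    exact hp (star_eq_zero.1 h)
  obtain ⟨t, ht, ht2⟩ := hpos (w - p) (Nat.sub_le _ _) _ hx hx0
  have h2 : star (f p) ⬝ᵥ (Ψ *ᵥ v) = star (f p) ⬝ᵥ (Ψ *ᵥ f p) := by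
    rw [← hfv]
    have h3 : Ψ *ᵥ (f.sum fun _ x => x) = ∑ q ∈ f.support, Ψ *ᵥ f q := by
      exact Matrix.mulVec_sum _ _ _
    rw [h3, dotProduct_sum, Finset.sum_eq_single p]
    · intro q _ hq
      exact horth (w - p) q (by omega) _ hx _ (hf q)
    · intro hp'
      rw [Finsupp.notMem_support_iff.1 hp', mulVec_zero, dotProduct_zero]
  rw [h0, dotProduct_zero] at h2
  rw [star_star, ← h2, mul_zero] at ht2
  have : t = 0 := by exact_mod_cast ht2.symm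
  linarith

theorem HL_unit {w : ℕ} {Ψ : Matrix d d ℂ} {V : ℕ → Submodule ℂ (d → ℂ)}
    {m : Submodule ℂ (Matrix d d ℂ)} (h : HL w Ψ V m) : IsUnit Ψ.det := by
  rw [isUnit_iff_ne_zero]
  intro h0
  obtain ⟨v, hv, hv0⟩ := Matrix.exists_mulVec_eq_zero_iff.2 h0
  exact HL_left h.top h.span h.conj h.orth h.pos hv hv0

theorem cdl (hcrd : CrdStmt) (hrk2 : Rk2Stmt) (hirr : IrrStmt) (hspl : SplStmt)
    (hlag : LagStmt) : CdlStmt := by
  intro d _ _ w Ψ V g hg κ m hκ hm hdep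
  rcases hcrd d w Ψ V g hg with h1 | ⟨U, U', h1, h2, h3, h4, h5, h6⟩ |
    ⟨U, U', h1, h2, h3, h4, h5, h6⟩
  · exact hrk2 d Ψ hg.skew (HL_unit hg) g hg.br hg.le h1
      (hirr d w Ψ V g hg κ m hκ (by omega) hdep)
  · have := hspl d w Ψ V g hg κ m hκ hdep U U' h1 h2 h3 h4 h5 h6
    omega
  · have := hlag d w Ψ V g hg κ m hκ hdep U U' h1 h2 h3 h4 h5 h6
    omega

end Pool.Agent.MTF.H32
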