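import Pool.Agent.MTF.StmtsB

/-! Module NIP: the nilpotent elements of the two monodromy groups. -/

set_option autoImplicit false

namespace Pool.Agent.MTF.H32

open Matrix Pool.Agent.MT100 Pool.Agent.MT100G Pool.Agent.MT100A Pool.Agent.MT100D
  Pool.Agent.Helper78_MT Pool.Agent.MT100A.H78

section

variable {d : Type}

theorem pev_swap (M : Matrix d d ℂ) (p : MvPolynomial (d × d) ℂ) :
    pev M (MvPolynomial.rename Prod.swap p) = pev Mᵀ p := by
  unfold pev
  rw [MvPolynomial.aeval_rename]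
  rfl

end

variable {d : Type} [Fintype d] [DecidableEq d]

theorem ue_transpose (X : Matrix d d ℂ) (s : ℂ) : ue Xᵀ s = (ue X s)ᵀ := by
  unfold ue
  rw [Matrix.transpose_sum]
  refine Finset.sum_congr rfl fun t _ => ?_
  rw [← Matrix.transpose_pow, Matrix.transpose_smul]

theorem nip : NipStmt := by
  intro d _ _ F P hP X hX
  have h := Matrix.nonsing_inv_mul _ hP
  have h' := Matrix.mul_nonsing_inv _ hP
  have hcan : ∀ Y : Matrix d d ℂ, P * (P⁻¹ * Y * P) * P⁻¹ = Y := by
    intro Y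
    calc P * (P⁻¹ * Y * P) * P⁻¹ = (P * P⁻¹) * Y * (P * P⁻¹) := by
          simp only [Matrix.mul_assoc]
      _ = Y := by rw [h', one_mul, mul_one]
  have hcan' : ∀ Y : Matrix d d ℂ, P⁻¹ * (P * Y * P⁻¹) * P = Y := by
    intro Y
    calc P⁻¹ * (P * Y * P⁻¹) * P = (P⁻¹ * P) * Y * (P⁻¹ * P) := by
          simp only [Matrix.mul_assoc]
      _ = Y := by rw [h, one_mul, mul_one]
  refine ⟨(P⁻¹ * X * P)ᵀ, ⟨?_, fun s => ?_⟩, ?_⟩
  · obtain ⟨k, hk⟩ := nil_conj h' h hX.1
    exact ⟨k, by rw [← Matrix.transpose_pow, hk, Matrix.transpose_zero]⟩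
  · rw [ue_transpose, ue_conj h' h]
    refine ⟨?_, fun p hp => ?_⟩
    · rw [Matrix.det_transpose, Matrix.det_mul, Matrix.det_mul]
      exact ((Matrix.isUnit_nonsing_inv_det _ hP).mul (hX.2 s).1).mul hP
    · have h1 : ∀ m : Matrix d d ℂ, pev m (lsub P⁻¹ (rsub P (MvPolynomial.rename Prod.swap p))) =
          pev (P⁻¹ * m * P)ᵀ p := by
        intro m
        rw [pev_lsub, pev_rsub, pev_swap]
      rw [← h1]
      refine (hX.2 s).2 _ ?_
      rintro γ ⟨g, hg, rfl⟩
      rw [h1, hcan', Matrix.transpose_transpose]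
      exact hp g hg
  · rw [Matrix.transpose_transpose, hcan]

end Pool.Agent.MTF.H32
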